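import Pool.Agent.helper60.HC.PSpec0
import Pool.Agent.helper28.HC.SpecK

/-!
# HC, strong approximation and existence of admissible data (`SAN_stmt`)

Every `SAn_stmt : Prop` is one module; its proof may assume any other statement of this file or of
`HC.SpecK` as a hypothesis.  File `Pool/Agent/<seat>/HC/SAn.lean`, `import
Pool.Agent.helper89.HC.SpecSA`, `namespace HC`, `theorem SAn (h : ..) : SAn_stmt`, auxiliary lemmas
prefixed `SAn_`.  Overview: a prime `p` splitting completely (SA1, SA2, SA3), the prime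
`P = {x | ‖psi x‖ < 1}` (SA5), `P ^ m = (w)` (SA6), trivial stabiliser (SA7); the group `SGrp` of
elements of `SU (diag (1, -d))` over `𝓞 [1 / (w w*)]` congruent to one modulo `N` is dense in
`SL_2 (ℚ_p)` (SA8 - SA15); all lattices (SA16 - SA18); assembly (SA19).
-/

open scoped BigOperators ComplexConjugate Matrix
open NumberField

namespace HC

/-! ## definitions -/

/-- a set of `2 × 2` matrices of determinant one closed under products and inverses -/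
structure MGrp {R : Type*} [CommRing R] (C : Set (Matrix (Fin 2) (Fin 2) R)) : Prop where
  one : (1 : Matrix (Fin 2) (Fin 2) R) ∈ C
  mul : ∀ g ∈ C, ∀ h ∈ C, g * h ∈ C
  adj : ∀ g ∈ C, g.adjugate ∈ C
  det : ∀ g ∈ C, g.det = 1

/-- the closure of `C` in the `p`-adic topology -/
def PCl (p : ℕ) [Fact p.Prime] (C : Set (Matrix (Fin 2) (Fin 2) ℚ_[p])) :
    Set (Matrix (Fin 2) (Fin 2) ℚ_[p]) :=
  {g | ∀ n : ℕ, ∃ h ∈ C, ∀ i j, ‖g i j - h i j‖ ≤ (p : ℝ) ^ (-(n : ℤ))}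

/-- the difference `g - g⁻¹` of a matrix of determinant one (traceless) -/
noncomputable def Ym {R : Type*} [CommRing R] (g : Matrix (Fin 2) (Fin 2) R) :
    Matrix (Fin 2) (Fin 2) R := g - g.adjugate

/-- the determinant of three traceless matrices -/
noncomputable def d3 {R : Type*} [CommRing R] (Y : Fin 3 → Matrix (Fin 2) (Fin 2) R) : R :=
  (Matrix.of fun k : Fin 3 => ![Y k 0 0, Y k 0 1, Y k 1 0]).det

section
variable {E : Type} [Field E] [NumberField E] [IsCMField E]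

/-- elements of norm one of the unitary group, integral outside `w w*` and `= 1` modulo `N` -/
noncomputable def SGrp (d : E) (N : ℕ) (w : E) : Set (Matrix (Fin 2) (Fin 2) E) :=
  {g | g.det = 1 ∧ gᴴ * hm 1 d * g = hm 1 d ∧ ∃ k : ℕ, CongOne N ((w * star w) ^ k • g)}

/-- the matrix `[[a, d b*], [b, a*]]` -/
noncomputable def QM (d a b : E) : Matrix (Fin 2) (Fin 2) E := !![a, d * star b; b, star a]

end

/-! ## the prime -/

/-- SA1: prime divisors of values of a polynomial.  With `c = f 0`, `f (c M t) = c (1 + M t q)`; the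
integer `1 + M t q` is prime to `M`, and it is not `1` or `-1` for some `t` (otherwise
`f (c M t) = c` or `-c` for all `t`). -/
def SA1_stmt : Prop := ∀ f : Polynomial ℤ, 0 < f.natDegree → f.coeff 0 ≠ 0 → ∀ M : ℕ, 0 < M →
  ∃ (p : ℕ) (r : ℤ), p.Prime ∧ ¬ p ∣ M ∧ (p : ℤ) ∣ f.eval r

/-- SA2: roots modulo `p` are simple for `p` not dividing `D`.  (Over `ℚ`: `u f + v f' = 1`, because
`f` is irreducible by Gauss, so separable; clear denominators.) -/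
def SA2_stmt : Prop := ∀ f : Polynomial ℤ, f.Monic → Irreducible f → ∃ D : ℕ, 0 < D ∧
  ∀ p : ℕ, p.Prime → ¬ p ∣ D → ∀ r : ℤ, (p : ℤ) ∣ f.eval r → ¬ (p : ℤ) ∣ f.derivative.eval r

/-- SA3: embeddings into `ℚ_p`.  Uses SA1, SA2, `hensels_lemma` and a power basis: `E = ℚ (th)`, `th`
integral and not zero, `f = minpoly ℤ th`, a root of `f` in `ℤ_p`. -/
def SA3_stmt : Prop := ∀ (E : Type) [Field E] [NumberField E] (M : ℕ), 0 < M →
  ∃ (p : ℕ) (_ : Fact p.Prime), ¬ p ∣ M ∧ Nonempty (E →+* ℚ_[p])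

/-- SA4: integers have `p`-adic norm at most one, and norm one if `p` does not divide their norm.
(`ℤ_[p]` is integrally closed; `x` divides its norm.) -/
def SA4_stmt : Prop := ∀ (E : Type) [Field E] [NumberField E] (x : E), IsIntegral ℤ x →
  (∀ (p : ℕ) [Fact p.Prime] (psi : E →+* ℚ_[p]), ‖psi x‖ ≤ 1) ∧
  (x ≠ 0 → ∃ D : ℕ, 0 < D ∧ ∀ (p : ℕ) [Fact p.Prime] (psi : E →+* ℚ_[p]), ¬ p ∣ D → ‖psi x‖ = 1)

/-- SA5: the prime ideal of an embedding into `ℚ_p`.  (`P` = inverse image of the maximal ideal of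
`ℤ_p`; `𝓞 / P ≅ ℤ / p`; `Q_k = {x | ‖psi x‖ ≤ p ^ (-k)}` contains `P ^ k` and `𝓞 / Q_k ≅ ℤ / p ^ k`
has as many elements as `𝓞 / P ^ k`.) -/
def SA5_stmt : Prop := ∀ (E : Type) [Field E] [NumberField E] (p : ℕ) [Fact p.Prime]
  (psi : E →+* ℚ_[p]), ∃ P : Ideal (𝓞 E), P.IsPrime ∧ Ideal.absNorm P = p ∧
  (∀ x : 𝓞 E, x ∈ P ↔ ‖psi (x : E)‖ < 1) ∧
  ∀ (k : ℕ) (x : 𝓞 E), x ∈ P ^ k ↔ ‖psi (x : E)‖ ≤ (p : ℝ) ^ (-(k : ℤ))

/-- SA6: a power of `P` is generated by an element `= 1` modulo `N`.  (The class group and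
`(𝓞 / N)ˣ` are finite; `P` is prime to `N`.) -/
def SA6_stmt : Prop := ∀ (E : Type) [Field E] [NumberField E] (P : Ideal (𝓞 E)) (p N : ℕ),
  p.Prime → P.IsPrime → Ideal.absNorm P = p → 0 < N → ¬ p ∣ N →
  ∃ (m : ℕ) (w : 𝓞 E), 0 < m ∧ P ^ m = Ideal.span {w} ∧ ∃ y : 𝓞 E, w = 1 + (N : 𝓞 E) * y

/-- SA7: trivial stabiliser.  Uses SA4.  `th` an integral primitive element, `D` such that
`th - s th`, `s ≠ 1`, are units at all `p` not dividing `D`.  If `s w ∈ P`, then `s P ⊆ P`; with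
`r` an integer such that `th - r ∈ P` also `s th - r ∈ P`, so `th - s th ∈ P`, contradiction. -/
def SA7_stmt : Prop := ∀ (E : Type) [Field E] [NumberField E] [IsGalois ℚ E], ∃ D : ℕ, 0 < D ∧
  ∀ (p : ℕ) [Fact p.Prime] (psi : E →+* ℚ_[p]) (P : Ideal (𝓞 E)) (m : ℕ) (w : 𝓞 E), ¬ p ∣ D →
  P.IsPrime → (∀ x : 𝓞 E, x ∈ P ↔ ‖psi (x : E)‖ < 1) → 0 < m → P ^ m = Ideal.span {w} →
  ∀ s : E ≃ₐ[ℚ] E, s ≠ 1 → ¬ MemP P (s (w : E))

/-! ## subgroups of `SL_2 (ℚ_p)` -/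

/-- SA8: the closure of a group is a closed group. -/
def SA8_stmt : Prop := ∀ (p : ℕ) [Fact p.Prime] (C : Set (Matrix (Fin 2) (Fin 2) ℚ_[p])),
  MGrp C → C ⊆ PCl p C ∧ MGrp (PCl p C) ∧ PCl p (PCl p C) ⊆ PCl p C

/-- SA9: powers.  There are `e, s > 0` with `g ^ e = 1 + p ^ s Z`, `Z ≠ 0` modulo `p`.  By Cayley and
Hamilton `g ^ e = x g + y`, so `p ^ s (Z - adj Z) = x Y` with `Y = Ym g`; `det = 1` gives
`tr Z = 0` modulo `p`, so `x = p ^ s x'`, `2 Z = x' Y` modulo `p` and `x'` is a unit.  Finally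
`(1 + p ^ s Z) ^ (p ^ r) = 1 + p ^ (s + r) Z` modulo `p ^ (s + r + 1)` (`p` odd, `s > 0`). -/
def SA9_stmt : Prop := ∀ (p : ℕ) [Fact p.Prime], p ≠ 2 → ∀ g : Matrix (Fin 2) (Fin 2) ℤ_[p],
  g.det = 1 → (∀ n : ℕ, 0 < n → g ^ n ≠ 1) → (∃ i k, ¬ (p : ℤ_[p]) ∣ Ym g i k) →
  ∃ j0 : ℕ, 0 < j0 ∧ ∀ j ≥ j0, ∃ n u : ℕ, ¬ p ∣ u ∧ ∃ Z : Matrix (Fin 2) (Fin 2) ℤ_[p],
    g ^ n = 1 + (p : ℤ_[p]) ^ j • ((u : ℤ_[p]) • Ym g) + (p : ℤ_[p]) ^ (j + 1) • Z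

/-- SA10: a closed group with three independent elements is open.  Uses SA9.  For `j` large and
`h = 1 + p ^ j T` of determinant one, `tr T = 0` modulo `p`, so `T = ∑ n_k u_k Y_k` modulo `p` with
natural `n_k` (the `3 × 3` determinant is a unit) and `c = g_0 ^ (..) g_1 ^ (..) g_2 ^ (..)` satisfies
`c⁻¹ h = 1` modulo `p ^ (j + 1)`.  Iterate; `C` is closed. -/
def SA10_stmt : Prop := ∀ (p : ℕ) [Fact p.Prime], p ≠ 2 →
  ∀ C : Set (Matrix (Fin 2) (Fin 2) ℚ_[p]), MGrp C → PCl p C ⊆ C →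
  ∀ g : Fin 3 → Matrix (Fin 2) (Fin 2) ℤ_[p], (∀ k, (g k).map (fun x => (x : ℚ_[p])) ∈ C) →
  (∀ k, ∀ n : ℕ, 0 < n → g k ^ n ≠ 1) → IsUnit (d3 fun k => Ym (g k)) →
  ∃ j : ℕ, ∀ h : Matrix (Fin 2) (Fin 2) ℚ_[p], h.det = 1 →
    (∀ i k, ‖(h - 1) i k‖ ≤ (p : ℝ) ^ (-(j : ℤ))) → h ∈ C

/-- SA11: an open group with an unbounded element is everything.  `s` has eigenvalues `l, l⁻¹` in
`ℚ_p` with `‖l‖ = ‖tr s‖ > 1` (`hensels_lemma` for `c X ^ 2 - X + c`, `c = (tr s)⁻¹`, at `0`), so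
`s = Q diag (l, l⁻¹) Q⁻¹`.  The group `Q⁻¹ C Q` contains all matrices near one and `diag (l, l⁻¹)`,
hence, conjugating by its powers, both unipotent groups, which generate `SL_2`. -/
def SA11_stmt : Prop := ∀ (p : ℕ) [Fact p.Prime] (C : Set (Matrix (Fin 2) (Fin 2) ℚ_[p])),
  MGrp C → ∀ j : ℕ, (∀ h : Matrix (Fin 2) (Fin 2) ℚ_[p], h.det = 1 →
    (∀ i k, ‖(h - 1) i k‖ ≤ (p : ℝ) ^ (-(j : ℤ))) → h ∈ C) →
  ∀ s ∈ C, 1 < ‖s.trace‖ → ∀ g : Matrix (Fin 2) (Fin 2) ℚ_[p], g.det = 1 → g ∈ C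

/-- SA12: density criterion.  From SA8, SA10, SA11. -/
def SA12_stmt : Prop := ∀ (p : ℕ) [Fact p.Prime], p ≠ 2 →
  ∀ C : Set (Matrix (Fin 2) (Fin 2) ℚ_[p]), MGrp C →
  ∀ g : Fin 3 → Matrix (Fin 2) (Fin 2) ℚ_[p], (∀ k, g k ∈ C) → (∀ k i j, ‖g k i j‖ ≤ 1) →
  (∀ k, ∀ n : ℕ, 0 < n → g k ^ n ≠ 1) → ‖d3 fun k => Ym (g k)‖ = 1 →
  ∀ s ∈ C, 1 < ‖s.trace‖ → ∀ x : Matrix (Fin 2) (Fin 2) ℚ_[p], x.det = 1 → x ∈ PCl p C

/-! ## the global group -/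

/-- SA13: a good global element.  Uses KF, KS, CG, GM, TF, EB.  (`Gam 1 d M`, `M = 3 N`, is
cocompact; if all its elements had `g 1 0 = 0`, they would be diagonal and preserve `‖z‖`.  So some
element has `b = g 1 0 ≠ 0`; `det = 1` and no torsion by TF; elements of determinant one are
`QM d a b`.  If `a = star a`, replace `g = QM d a b` by `g * QM d a (i b)`, which is
`QM d (a ^ 2 + i d b b*) ((1 + i) a b)`; `a ≠ 0` because `a a* = 1 + d b b*` is positive at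
`iota`.) -/
def SA13_stmt : Prop := ∀ (E : Type) [Field E] [NumberField E] [IsCMField E]
  (iota : E →+* ℂ) (d : E), Hyp E iota d → (∃ i : E, i ^ 2 = -1) → ∀ N : ℕ, 0 < N →
  ∃ a b : E, a * star a - d * (b * star b) = 1 ∧ b ≠ 0 ∧ a ≠ star a ∧
    (∃ x, IsIntegral ℤ x ∧ a = 1 + (N : E) * x) ∧ (∃ y, IsIntegral ℤ y ∧ b = (N : E) * y) ∧
    ∀ u : E, u * star u = 1 → ∀ n : ℕ, 0 < n → QM d a (u * b) ^ n ≠ 1

/-- SA14: the `P`-arithmetic group and some of its elements. -/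
def SA14_stmt : Prop := ∀ (E : Type) [Field E] [NumberField E] [IsCMField E] (d : E) (N : ℕ)
  (w : E), star d = d → IsIntegral ℤ d → 0 < N → IsIntegral ℤ w → w ≠ 0 →
  (∃ y, IsIntegral ℤ y ∧ w = 1 + (N : E) * y) →
  MGrp (SGrp d N w) ∧
  ∀ a b : E, a * star a - d * (b * star b) = 1 → (∃ x, IsIntegral ℤ x ∧ a = 1 + (N : E) * x) →
    (∃ y, IsIntegral ℤ y ∧ b = (N : E) * y) →
    QM d a b ∈ SGrp d N w ∧
    !![1, 0; 0, star w / w] * QM d a b * !![1, 0; 0, w / star w] * (QM d a b).adjugate ∈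
      SGrp d N w

/-- SA15: density of the `P`-arithmetic group.  Uses SA4, SA12, SA13, SA14 (apply SA12 to the image
of `SGrp` and the three elements `QM d a (i ^ k b)`, `k = 0, 1, 2`: `d3` is
`16 i (a - a*) d b b*` up to sign; `s` = the commutator of SA14, of trace
`2 a a* - d b b* (w / w* + w* / w)`, of norm `‖phi (star w)‖⁻¹`). -/
def SA15_stmt : Prop := ∀ (E : Type) [Field E] [NumberField E] [IsCMField E]
  (iota : E →+* ℂ) (d : E), Hyp E iota d → (∃ i : E, i ^ 2 = -1) → ∀ N : ℕ, 0 < N →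
  ∃ D : ℕ, 0 < D ∧ ∀ (p : ℕ) [Fact p.Prime] (phi : E →+* ℚ_[p]) (w : E), ¬ p ∣ D →
  IsIntegral ℤ w → w ≠ 0 → (∃ y, IsIntegral ℤ y ∧ w = 1 + (N : E) * y) → ‖phi w‖ = 1 →
  ‖phi (star w)‖ < 1 → ∀ x : Matrix (Fin 2) (Fin 2) ℚ_[p], x.det = 1 → ∀ n : ℕ,
  ∃ h ∈ SGrp d N w, ∀ i j, ‖x i j - phi (h i j)‖ ≤ (p : ℝ) ^ (-(n : ℤ))

/-! ## lattices -/

/-- SA16: subgroups of `ℤ ^ 2`.  (Hermite form, or a basis and the determinant formula for the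
index.) -/
def SA16_stmt : Prop := ∀ (p m : ℕ) (K : AddSubgroup (Fin 2 → ℤ)), p.Prime → K.index = p ^ m →
  ∃ B : Matrix (Fin 2) (Fin 2) ℤ, B.det = (p : ℤ) ^ m ∧ ∀ x, x ∈ K ↔ ∃ y, x = B *ᵥ y

/-- SA17: the lattice at the place `phi`.  Uses SA16, SA4.  (`n ∈ ℤ` with `‖phi x - n‖ ≤ p ^ (-m)`
exists for every integer `x` of `E`, so `𝓞 = ℤ + u 𝓞`; `H` is determined by its intersection with
`ℤ ^ 2`, of index `p ^ m` in `ℤ ^ 2`.) -/
def SA17_stmt : Prop := ∀ (E : Type) [Field E] [NumberField E] (p m : ℕ) [Fact p.Prime]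
  (phi : E →+* ℚ_[p]) (u : E), IsIntegral ℤ u → ‖phi u‖ = (p : ℝ) ^ (-(m : ℤ)) →
  (∀ x : E, IsIntegral ℤ x → ‖phi x‖ ≤ (p : ℝ) ^ (-(m : ℤ)) →
    ∃ z : E, IsIntegral ℤ z ∧ x = u * z) →
  ∀ H : AddSubgroup (Fin 2 → E), H ≤ OL E 2 → (∀ x ∈ OL E 2, u • x ∈ H) →
    H.relIndex (OL E 2) = p ^ m →
  ∃ B : Matrix (Fin 2) (Fin 2) ℚ_[p], (∀ i j, ‖B i j‖ ≤ 1) ∧ ‖B.det‖ = (p : ℝ) ^ (-(m : ℤ)) ∧
    ∀ x ∈ OL E 2, x ∈ H ↔
      ∃ y : Fin 2 → ℚ_[p], (∀ i, ‖y i‖ ≤ 1) ∧ (fun i => phi (x i)) = B *ᵥ y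

/-- SA18: strong approximation for lattices.  Uses SA14, SA17, SA4.  Let `B` be the matrix of SA17
(`u = star w`), `X0 = diag (w, w*)`, `T = phi (w*)⁻¹ phi (X0) B diag (1, v)`, `v` the unit with
`det T = 1`.  Density: `s ∈ SGrp` with `phi (s)` so near `T⁻¹` that `phi (s) T` is integral, so in
`SL_2 (ℤ_p)`.  Put `X = s X0`, `g = w⁻¹ X`.  `phi (X) B = phi (w*) K`, `K` in `GL_2 (ℤ_p)`, so
`phi (X)` is integral and `x ∈ H ↔ ‖phi (X x)‖ ≤ p ^ (-m) ↔ X x ∈ w* 𝓞 ^ 2`.  `X` is integral: its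
entries `x` satisfy `(w w*) ^ k x` integral, `‖phi x‖ ≤ 1`, `‖phi (star x)‖ ≤ 1` (`X` is
`[[w a, w* d c*], [w c, w* a*]]` and `d` is a unit at `phi`), and divisibility by `w*` is seen by
`phi`, divisibility by `w` by `phi` composed with `star`.  Since `(w w*) ^ k = 1` modulo `N`, also
`X = 1` modulo `N`. -/
def SA18_stmt : Prop := ∀ (E : Type) [Field E] [NumberField E] [IsCMField E] (d : E)
  (N p m : ℕ) [Fact p.Prime] (phi : E →+* ℚ_[p]) (w : E), star d = d → IsIntegral ℤ d →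
  ‖phi d‖ = 1 → 0 < N → IsIntegral ℤ w → w ≠ 0 → (∃ y, IsIntegral ℤ y ∧ w = 1 + (N : E) * y) →
  ‖phi w‖ = 1 → 0 < m → ‖phi (star w)‖ = (p : ℝ) ^ (-(m : ℤ)) →
  (∀ x : E, IsIntegral ℤ x → ‖phi x‖ ≤ (p : ℝ) ^ (-(m : ℤ)) →
    ∃ z : E, IsIntegral ℤ z ∧ x = star w * z) →
  (∀ x : Matrix (Fin 2) (Fin 2) ℚ_[p], x.det = 1 → ∀ n : ℕ,
    ∃ h ∈ SGrp d N w, ∀ i j, ‖x i j - phi (h i j)‖ ≤ (p : ℝ) ^ (-(n : ℤ))) →
  SApp d N p m w

/-- SA19: assembly. Uses SA3, SA4, SA5, SA6, SA7, SA15, SA18 (`phi = psi ∘ star`). -/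
def SA19_stmt : Prop := SAN_stmt

end HC
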